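import Pool.Agent.Helper32.WI.Main

/-!
# `WKL₀` proves that every noncomputable set has a Turing incomparable set

The definitions used in the statement are in `Pool.Agent.Helper32.WI.Defs`: the basic axioms
(`PAM`), bounded formulas with number and set parameters (`Tm`, `Bdd`), the models of `RCA₀` and
`WKL₀` (`RCA0`, `WKL0`), Turing reducibility (`TuringLE`).

Idea of the proof (finite injury inside an arbitrary model, no forcing and no measure-theoretic
coding). Strings `c` of length `N b = b ^ 2 + 5 b` are `light` for `b` if few oracles let one of the
functionals `e < b` output `c`. A run is a computable sequence of levels `k s` and of finite sets
`A s` of strings of length `N s`; the strings in `A (s + 1)` extend strings of `A s` which are light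
for the births of all levels, a move of a level replaces each string of the level by exactly one
extension, and a new level is created if no move is wanted. The class `P` of a run contains paths in
every model of `WKL₀`. If all levels are eventually stable then every member of `P` is computed by
few sets, so a member of `P` computable from `X` gives a set incomparable with `X`. Hence if `X` is
comparable with all sets then all members of `P` compute `X`. For a first run two members of `P` with
different first digits can only share sets with a tame (limit computable) approximation, and for a
second run, with this approximation, Sacks preservation shows that no member of `P` computes `X`.
The levels form a cut of the model which is never used as a set (blocks in the sense of Shore).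
-/

set_option autoImplicit false

universe u

namespace Pool.Agent.Results.MP_1db90f_lc.WKLIncomparable

open WI

/-- In every model `(M, S)` of `WKL₀` every noncomputable set `X` of the model has a Turing
incomparable set `Y` in the model. -/
theorem result {M : Type u} [CommSemiring M] [LinearOrder M] [PAM M] (S : Set (Set M))
    (hS : WKL0 S) (X : Set M) (hX : X ∈ S) (hnc : ¬ TuringLE X ∅) :
    ∃ Y ∈ S, ¬ TuringLE X Y ∧ ¬ TuringLE Y X :=
  main_theorem S hS X hX hnc

end Pool.Agent.Results.MP_1db90f_lc.WKLIncomparable
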